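import Mathlib
import Pool.Agent.TH903.Nut.OddDefs

/-! NUT-ODD-KER (helper503, second prover, for helper903). -/

set_option autoImplicit false

namespace Pool.Agent.TH903.Nut.Od

theorem aa_ne {i m v : ℕ} (hm : 8 * i + 8 ≤ m) (hv : v < m) : aa i m v ≠ 0 := by
  unfold aa FF
  split_ifs <;> push_cast <;> omega

private theorem aa_gen {i m v : ℕ} (h : v + 4 ≤ m) : aa i m v = -1 - FF i (v + 1) := by
  unfold aa
  rw [if_neg (by omega), if_neg (by omega), if_neg (by omega)]

private theorem T1_eq (i v : ℕ) : (if T1 i v then (1 : ℤ) else 0) =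
    if 1 ≤ v ∧ v ≤ 4 * i + 4 ∧ v ≠ 3 * i + 3 then 1 else 0 := by
  by_cases h : T1 i v
  · rw [if_pos h, if_pos (by unfold T1 at h; omega)]
  · rw [if_neg h, if_neg (by unfold T1 at h; omega)]

private theorem T2_eq (i v : ℕ) : (if T2 i v then (1 : ℤ) else 0) =
    if (1 ≤ v ∧ v ≤ 2 * i + 2) ∨ (4 * i + 5 ≤ v ∧ v ≤ 6 * i + 5) then 1 else 0 := by
  by_cases h : T2 i v
  · rw [if_pos h, if_pos (by unfold T2 at h; omega)]
  · rw [if_neg h, if_neg (by unfold T2 at h; omega)]

private theorem T3_eq (i m v : ℕ) : (if T3 i m v then (1 : ℤ) else 0) =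
    if (2 * i + 3 ≤ v ∧ v ≤ 6 * i + 5 ∧ v ≠ 3 * i + 3) ∨ v = m - 2 ∨ v = m - 1 then 1 else 0 := by
  by_cases h : T3 i m v
  · rw [if_pos h, if_pos (by unfold T3 at h; omega)]
  · rw [if_neg h, if_neg (by unfold T3 at h; omega)]

private theorem FF_step {i m v : ℕ} (hm : 8 * i + 8 ≤ m) (h2 : 2 ≤ v) (h3 : v + 3 ≤ m) :
    FF i v - FF i (v - 1) = (if T1 i v then (1 : ℤ) else 0) + (if T2 i v then 1 else 0) -
      2 * (if T3 i m v then 1 else 0) := by
  rw [T1_eq, T2_eq, T3_eq]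
  unfold FF
  have e : ((v - 1 : ℕ) : ℤ) = (v : ℤ) - 1 := by omega
  rw [e]
  rcases (by omega : v ≤ 2 * i + 2 ∨ (2 * i + 3 ≤ v ∧ v ≤ 3 * i + 2) ∨ v = 3 * i + 3 ∨
    (3 * i + 4 ≤ v ∧ v ≤ 4 * i + 4) ∨ (4 * i + 5 ≤ v ∧ v ≤ 6 * i + 5) ∨ v = 6 * i + 6 ∨
    6 * i + 7 ≤ v) with h | h | h | h | h | h | h <;> split_ifs <;> omega

theorem aa_eq {i m v : ℕ} (hm : 8 * i + 8 ≤ m) (hv : v < m) :
    (if v ≠ m - 1 then aa i m (if v = 0 then m - 1 else v - 1) else 0)
    - (if v ≠ 0 then aa i m (if v < 2 then v + m - 2 else v - 2) else 0)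
    + ((if T1 i v then (1 : ℤ) else 0) + (if T2 i v then 1 else 0) - 2 * (if T3 i m v then 1 else 0))
    + (if v = 0 ∨ v = m - 2 then 1 else 0) = 0 := by
  have a1 : aa i m (m - 1) = -1 := by unfold aa; rw [if_pos rfl]
  have a3 : aa i m (m - 3) = -2 := by
    unfold aa; rw [if_neg (by omega), if_neg (by omega), if_pos rfl]
  rcases (by omega : v = 0 ∨ v = 1 ∨ v = m - 1 ∨ v = m - 2 ∨ (2 ≤ v ∧ v + 3 ≤ m)) with
    h | h | h | h | ⟨h2, h3⟩
  · subst h
    rw [T1_eq, T2_eq, T3_eq, if_pos (by omega), if_pos rfl, a1, if_neg (by omega),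
      if_neg (by omega), if_neg (by omega), if_neg (by omega), if_pos (by omega)]
    norm_num
  · subst h
    rw [T1_eq, T2_eq, T3_eq, if_pos (by omega), if_neg (by omega), if_pos (by omega),
      if_pos (by omega), if_pos (by omega), if_pos (by omega), if_neg (by omega),
      if_neg (by omega)]
    have e1 : (1 : ℕ) + m - 2 = m - 1 := by omega
    rw [e1, a1, aa_gen (by omega)]
    have e2 : FF i (1 - 1 + 1) = 2 := by
      unfold FF
      rw [if_pos (by omega)]
      norm_num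
    rw [e2]
    norm_num
  · rw [T1_eq, T2_eq, T3_eq, if_neg (by omega), if_pos (by omega), if_neg (by omega)]
    have e1 : v - 2 = m - 3 := by omega
    rw [e1, a3, if_neg (by omega), if_neg (by omega), if_pos (by omega), if_neg (by omega)]
    norm_num
  · have t1 : (if T1 i v then (1 : ℤ) else 0) = 0 := by rw [T1_eq, if_neg (by omega)]
    have t2 : (if T2 i v then (1 : ℤ) else 0) = 0 := by rw [T2_eq, if_neg (by omega)]
    have t3 : (if T3 i m v then (1 : ℤ) else 0) = 1 := by rw [T3_eq, if_pos (by omega)]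
    have e1 : v - 1 = m - 3 := by omega
    rw [t1, t2, t3, if_pos (by omega : v ≠ m - 1), if_neg (by omega : ¬ v = 0),
      if_pos (by omega : v ≠ 0), if_neg (by omega : ¬ v < 2),
      if_pos (by omega : v = 0 ∨ v = m - 2), e1, a3, aa_gen (by omega)]
    have e2 : FF i (v - 2 + 1) = 2 := by
      unfold FF
      split_ifs <;> omega
    rw [e2]
    norm_num
  · have hs := FF_step hm h2 h3
    rw [if_pos (by omega), if_neg (by omega), if_pos (by omega), if_neg (by omega),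
      aa_gen (by omega), aa_gen (by omega),
      if_neg (by omega : ¬ (v = 0 ∨ v = m - 2))]
    have e1 : v - 1 + 1 = v := by omega
    have e2 : v - 2 + 1 = v - 1 := by omega
    rw [e1, e2]
    linarith

end Pool.Agent.TH903.Nut.Od
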